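import Mathlib
import Pool.Agent.H69.CliqueDefs
import Pool.Agent.LibCA69.Exact

/-!
# The exact value of the alpha-clique achievement number

The definitions are in `Pool/Agent/H69/CliqueDefs.lean`; the proof is in the other files
`Pool/Agent/H69/Clique*.lean` and in `Pool/Agent/LibCA69`.

Outline.  Let `M` be the expected number of `q`-sets with at least the fraction `α` of Maker's
edges; near `Q_α(N)` it is `N ^ (2 - (q - Q) + o(1))`.

Maker (`M ≥ N ^ (2 + ε)`): his potential is the average number of balanced dense `q`-sets of a
random completion of the position, minus a small multiple of a harmonic upper bound for its second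
moment over pairs of sets with at least three common vertices.  What he can lose in a round is the
average number `x` of such sets through the two edges claimed in the round, but the cross term of
the second moment part pays `x ^ 2`; so the loss in a round is below `N ^ (-2-ε')`.

Breaker (`M ≤ N ^ (2 - ε)`): sets of `q - O(1)` to `q` vertices which have become dangerous are
frozen; their free edges form a board on which Breaker answers Maker's moves locally.  The other
edges are played with a potential which prevents all configurations that could make the boards
interact: two dangerous sets have `O(1)` common vertices or differ in `O(1)` vertices, clusters of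
dangerous sets are bounded, and no `q`-set can profit from the boards it meets.
-/

set_option autoImplicit false

namespace Pool.Agent.Results.MP_0b4536_co.ExactValue

open Pool.Agent.H69.Clique

/-- For `1/2 < α < 1` the `α`-clique achievement number of `K_N` is `⌊Q_α(N) + o(1)⌋`. -/
theorem result (α : ℝ) (h0 : 1 / 2 < α) (h1 : α < 1) :
    ∃ ε : ℕ → ℝ, Filter.Tendsto ε Filter.atTop (nhds 0) ∧ ∀ᶠ N : ℕ in Filter.atTop,
      IsGreatest {q : ℕ | MakerGuarantees (HasDense N α q)} (achievement N α) ∧
      (achievement N α : ℤ) = ⌊Q α N + ε N⌋ :=
  Pool.Agent.LibCA69.exact_value h0 h1

end Pool.Agent.Results.MP_0b4536_co.ExactValue
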